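import Pool.Agent.H41.WC.Weights

set_option linter.unusedSectionVars false

namespace Pool.Agent.H41.WC

open scoped ENNReal NNReal

variable {A B : Type} [Fintype A] [Fintype B] [DecidableEq A] [DecidableEq B]
  {a₀ : A} {b₀ : B}

/-- The factor by which the step `s` changes the square root of the weight. -/
noncomputable def fac (κ : ℝ≥0) : A ⊕ B → ℝ≥0
  | Sum.inl _ => κ
  | Sum.inr _ => κ⁻¹

theorem hw_cons (κ : ℝ≥0) (s : A ⊕ B) (w : List (A ⊕ B)) : hw κ (s :: w) = fac κ s * hw κ w := by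
  rcases s with i | j <;> rfl

theorem sum_fac_sq {κ : ℝ≥0} (hκ : κ ≠ 0)
    (hcard : (Fintype.card B : ℝ≥0) = κ ^ 2 * Fintype.card A) :
    ∑ s : A ⊕ B, fac κ s ^ 2 = Fintype.card A * (κ ^ 2 + 1) := by
  rw [Fintype.sum_sum_type]
  simp only [fac, Finset.sum_const, Finset.card_univ, nsmul_eq_mul, hcard]
  field_simp

theorem sum_fac {κ : ℝ≥0} (hκ : κ ≠ 0)
    (hcard : (Fintype.card B : ℝ≥0) = κ ^ 2 * Fintype.card A) :
    ∑ s : A ⊕ B, fac κ s = 2 * (Fintype.card A * κ) := by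
  rw [Fintype.sum_sum_type]
  simp only [fac, Finset.sum_const, Finset.card_univ, nsmul_eq_mul, hcard]
  field_simp
  ring

theorem fac_sq_le {κ : ℝ≥0} (hκ : 1 ≤ κ) (s : A ⊕ B) : fac κ s ^ 2 ≤ κ ^ 2 := by
  rcases s with i | j
  · exact le_rfl
  · simp only [fac]
    gcongr
    calc κ⁻¹ ≤ 1 := inv_le_one_of_one_le₀ hκ
      _ ≤ κ := hκ

open Classical in
/-- The steps that may follow the word `w`. -/
noncomputable def nexts (a₀ : A) (b₀ : B) (w : List (A ⊕ B)) : Finset (A ⊕ B) :=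
  Finset.univ.filter fun s => Valid a₀ b₀ (s :: w)

theorem nexts_cover (w : List (A ⊕ B)) (hw : Valid a₀ b₀ w) :
    ∃ t : A ⊕ B, ∀ s, s ∉ nexts a₀ b₀ w → s = t := by
  classical
  cases w with
  | nil =>
    refine ⟨Sum.inl a₀, fun s hs => ?_⟩
    exact absurd (by simp [nexts, Valid]) hs
  | cons t w =>
    rcases t with i | j
    · refine ⟨Sum.inr b₀, fun s hs => ?_⟩
      by_contra hne
      apply hs
      simp only [nexts, Finset.mem_filter, Finset.mem_univ, true_and]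
      refine ⟨?_, hw⟩
      intro t ht
      simp only [List.head?_cons, Option.mem_def, Option.some.injEq] at ht
      subst ht
      exact ⟨fun h => hne h.1, by simp⟩
    · refine ⟨Sum.inl a₀, fun s hs => ?_⟩
      by_contra hne
      apply hs
      simp only [nexts, Finset.mem_filter, Finset.mem_univ, true_and]
      refine ⟨?_, hw⟩
      intro t ht
      simp only [List.head?_cons, Option.mem_def, Option.some.injEq] at ht
      subst ht
      exact ⟨by simp, fun h => hne h.1⟩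

theorem sum_nexts {κ : ℝ≥0} (hκ : 1 ≤ κ)
    (hcard : (Fintype.card B : ℝ≥0) = κ ^ 2 * Fintype.card A)
    (w : List (A ⊕ B)) (hw : Valid a₀ b₀ w) :
    Fintype.card A * (κ ^ 2 + 1) ≤ ∑ s ∈ nexts a₀ b₀ w, fac κ s ^ 2 + κ ^ 2 := by
  classical
  obtain ⟨t, ht⟩ := nexts_cover w hw
  have hκ0 : κ ≠ 0 := (lt_of_lt_of_le zero_lt_one hκ).ne'
  rw [← sum_fac_sq hκ0 hcard, ← Finset.sum_add_sum_compl (nexts a₀ b₀ w)]
  gcongr
  calc ∑ s ∈ (nexts a₀ b₀ w)ᶜ, fac κ s ^ 2 ≤ ∑ s ∈ ({t} : Finset (A ⊕ B)), fac κ s ^ 2 := by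
        apply Finset.sum_le_sum_of_subset_of_nonneg
        · intro s hs
          rw [Finset.mem_compl] at hs
          rw [Finset.mem_singleton]
          exact ht s hs
        · intro _ _ _; positivity
    _ ≤ κ ^ 2 := by
        rw [Finset.sum_singleton]
        exact fac_sq_le hκ t

/-- The total weight of the vertices that follow `x` in the rooted tree. -/
theorem weight_nexts {κ : ℝ≥0} (hκ : 1 ≤ κ)
    (hcard : (Fintype.card B : ℝ≥0) = κ ^ 2 * Fintype.card A)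
    (w : List (A ⊕ B)) (hvw : Valid a₀ b₀ w) :
    Fintype.card A * (κ ^ 2 + 1) * hw κ w ^ 2 ≤
      ∑ s ∈ nexts a₀ b₀ w, hw κ (s :: w) ^ 2 + κ ^ 2 * hw κ w ^ 2 := by
  calc _ ≤ (∑ s ∈ nexts a₀ b₀ w, fac κ s ^ 2 + κ ^ 2) * hw κ w ^ 2 := by
        gcongr
        exact sum_nexts hκ hcard w hvw
    _ = _ := by
        rw [add_mul, Finset.sum_mul]
        simp only [hw_cons, mul_pow]

/-- The weight function as a function on words. -/
noncomputable def wl (κ c : ℝ≥0) (l : List (A ⊕ B)) : ℝ≥0∞ := ((c * hw κ l ^ 2 : ℝ≥0) : ℝ≥0∞)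

theorem weight_eq {κ : ℝ≥0} (hκ : κ ≠ 0)
    (hcard : (Fintype.card B : ℝ≥0) = κ ^ 2 * Fintype.card A) (o : Vert a₀ b₀)
    (K : Set (Vert a₀ b₀)) :
    weight (parGroup a₀ b₀) o K = ∑' x : K, wl κ (hw κ o.1 ^ 2)⁻¹ (x : Vert a₀ b₀).1 := by
  unfold weight wl
  refine tsum_congr fun x => ?_
  rw [relWeight_eq hκ hcard]

theorem weight_finset {κ : ℝ≥0} (hκ : κ ≠ 0)
    (hcard : (Fintype.card B : ℝ≥0) = κ ^ 2 * Fintype.card A) (o : Vert a₀ b₀)
    (F : Finset (Vert a₀ b₀)) :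
    weight (parGroup a₀ b₀) o (F : Set (Vert a₀ b₀)) =
      ∑ x ∈ F, wl κ (hw κ o.1 ^ 2)⁻¹ x.1 := by
  rw [weight_eq hκ hcard]
  exact Finset.tsum_subtype F (fun x => wl κ (hw κ o.1 ^ 2)⁻¹ x.1)

theorem expansion {κ : ℝ≥0} (hκ : 1 ≤ κ)
    (hcard : (Fintype.card B : ℝ≥0) = κ ^ 2 * Fintype.card A) (o : Vert a₀ b₀)
    (F : Finset (Vert a₀ b₀)) :
    (Fintype.card A * (κ ^ 2 + 1) : ℝ≥0) * weight (parGroup a₀ b₀) o (F : Set (Vert a₀ b₀)) ≤
      weight (parGroup a₀ b₀) o (extBoundary (tree a₀ b₀) F) +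
      (κ ^ 2 + 1 : ℝ≥0) * weight (parGroup a₀ b₀) o (F : Set (Vert a₀ b₀)) := by
  classical
  have hκ0 : κ ≠ 0 := (lt_of_lt_of_le zero_lt_one hκ).ne'
  set c : ℝ≥0 := (hw κ o.1 ^ 2)⁻¹ with hc
  -- the next vertices
  let S : Finset (Vert a₀ b₀ × (A ⊕ B)) :=
    (F ×ˢ Finset.univ).filter fun p => Valid a₀ b₀ (p.2 :: p.1.1)
  have hS : ∀ p ∈ S, p.1 ∈ F ∧ Valid a₀ b₀ (p.2 :: p.1.1) := by
    intro p hp
    simp only [S, Finset.mem_filter, Finset.mem_product, Finset.mem_univ, and_true] at hp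
    exact hp
  have h1 : ∑ p ∈ S, wl κ c (p.2 :: p.1.1) ≤
      weight (parGroup a₀ b₀) o ((F : Set (Vert a₀ b₀)) ∪ extBoundary (tree a₀ b₀) F) := by
    rw [weight_eq hκ0 hcard, ← Finset.tsum_subtype S (fun p => wl κ c (p.2 :: p.1.1))]
    let f : {p // p ∈ S} → ((F : Set (Vert a₀ b₀)) ∪ extBoundary (tree a₀ b₀) F : Set _) :=
      fun p => ⟨⟨p.1.2 :: p.1.1.1, (hS p.1 p.2).2⟩, by
        by_cases hF : (⟨p.1.2 :: p.1.1.1, (hS p.1 p.2).2⟩ : Vert a₀ b₀) ∈ F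
        · exact Or.inl hF
        · exact Or.inr ⟨hF, p.1.1, (hS p.1 p.2).1, par_or_tail _ _⟩⟩
    have hf : Function.Injective f := by
      intro p q hpq
      have h : p.1.2 :: p.1.1.1 = q.1.2 :: q.1.1.1 :=
        congrArg (fun z => (z : ((F : Set (Vert a₀ b₀)) ∪ extBoundary (tree a₀ b₀) F : Set _)).1.1)
          hpq
      rw [List.cons.injEq] at h
      exact Subtype.ext (Prod.ext (Subtype.ext h.2) h.1)
    exact ENNReal.tsum_comp_le_tsum_of_injective hf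
      (fun y => wl κ c (y : Vert a₀ b₀).1)
  have h2 : ∑ p ∈ S, wl κ c (p.2 :: p.1.1) =
      ∑ x ∈ F, ∑ s ∈ nexts a₀ b₀ x.1, wl κ c (s :: x.1) := by
    simp only [S, Finset.sum_filter, Finset.sum_product, nexts]
  have h3 : weight (parGroup a₀ b₀) o ((F : Set (Vert a₀ b₀)) ∪ extBoundary (tree a₀ b₀) F) ≤
      weight (parGroup a₀ b₀) o (F : Set (Vert a₀ b₀)) +
        weight (parGroup a₀ b₀) o (extBoundary (tree a₀ b₀) F) := by
    unfold weight
    exact ENNReal.tsum_union_le (fun x => (relWeight (parGroup a₀ b₀) o x : ℝ≥0∞)) _ _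
  have h4 : (Fintype.card A * (κ ^ 2 + 1) : ℝ≥0) *
      weight (parGroup a₀ b₀) o (F : Set (Vert a₀ b₀)) ≤
      ∑ x ∈ F, ∑ s ∈ nexts a₀ b₀ x.1, wl κ c (s :: x.1) +
        (κ ^ 2 : ℝ≥0) * weight (parGroup a₀ b₀) o (F : Set (Vert a₀ b₀)) := by
    rw [weight_finset hκ0 hcard, Finset.mul_sum, Finset.mul_sum, ← Finset.sum_add_distrib]
    refine Finset.sum_le_sum fun x hx => ?_
    have := weight_nexts hκ hcard x.1 x.2
    simp only [wl]
    rw [← hc]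
    rw [← ENNReal.coe_mul, ← ENNReal.coe_mul, ← ENNReal.ofNNReal_finsetSum, ← ENNReal.coe_add,
      ENNReal.coe_le_coe]
    calc _ = c * (Fintype.card A * (κ ^ 2 + 1) * hw κ x.1 ^ 2) := by ring
      _ ≤ c * (∑ s ∈ nexts a₀ b₀ x.1, hw κ (s :: x.1) ^ 2 + κ ^ 2 * hw κ x.1 ^ 2) := by gcongr
      _ = _ := by rw [mul_add, Finset.mul_sum]; ring
  refine h4.trans ?_
  rw [← h2]
  refine (add_le_add_left (h1.trans h3) _).trans (le_of_eq ?_)
  rw [ENNReal.coe_add, ENNReal.coe_one]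
  ring

end Pool.Agent.H41.WC
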