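import Mathlib

/-!
# Heavy clusters and the weighted vertex Cheeger constant

For a graph `G` and a subgroup `Γ` of its automorphism group.
-/

namespace Pool.Agent.H41.WC

open MeasureTheory
open scoped ENNReal NNReal unitInterval

variable {V : Type*} {G : SimpleGraph V}

/-- `Γ` is closed in the automorphism group of `G` for the topology of pointwise convergence
(`V` being discrete). -/
def IsClosedInAut (Γ : Subgroup (G ≃g G)) : Prop :=
  @IsClosed (G ≃g G)
    (TopologicalSpace.induced (fun (γ : G ≃g G) (v : V) => γ v)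
      (@Pi.topologicalSpace V (fun _ => V) (fun _ => ⊥)))
    (Γ : Set (G ≃g G))

/-- The orbit `Γ_x y` of `y` under the stabilizer of `x` in `Γ`. -/
def stabOrbit (Γ : Subgroup (G ≃g G)) (x y : V) : Set V :=
  {z | ∃ γ ∈ Γ, γ x = x ∧ γ y = z}

/-- The relative weight `w^y(x) = |Γ_x y| / |Γ_y x|`. -/
noncomputable def relWeight (Γ : Subgroup (G ≃g G)) (y x : V) : ℝ≥0 :=
  ((stabOrbit Γ x y).ncard : ℝ≥0) / ((stabOrbit Γ y x).ncard : ℝ≥0)

/-- The total weight `w(K) = ∑_{x ∈ K} w^o(x)` of a set `K` of vertices. -/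
noncomputable def weight (Γ : Subgroup (G ≃g G)) (o : V) (K : Set V) : ℝ≥0∞ :=
  ∑' x : K, (relWeight Γ o (x : V) : ℝ≥0∞)

/-- The external vertex boundary of `F`. -/
def extBoundary (G : SimpleGraph V) (F : Finset V) : Set V :=
  {y | y ∉ F ∧ ∃ x ∈ F, G.Adj x y}

/-- The weighted vertex Cheeger constant: the infimum of `w(∂F) / w(F)` over the finite nonempty
sets `F` of vertices. -/
noncomputable def cheeger (Γ : Subgroup (G ≃g G)) (o : V) : ℝ≥0∞ :=
  ⨅ (F : Finset V) (_ : F.Nonempty), weight Γ o (extBoundary G F) / weight Γ o (F : Set V)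

/-- Bernoulli(`p`) bond percolation on `G`: the edges are open (`true`) independently with
probability `p`. -/
noncomputable def bondPercolation (G : SimpleGraph V) (p : I) : Measure (G.edgeSet → Bool) :=
  Measure.infinitePi fun _ => ProbabilityTheory.bernoulliMeasure true false p

/-- The graph of open edges of the configuration `ω`. -/
def openGraph (G : SimpleGraph V) (ω : G.edgeSet → Bool) : SimpleGraph V :=
  SimpleGraph.fromEdgeSet {e | ∃ h : e ∈ G.edgeSet, ω ⟨e, h⟩ = true}

/-- The cluster of `v` in the configuration `ω`. -/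
def cluster (G : SimpleGraph V) (ω : G.edgeSet → Bool) (v : V) : Set V :=
  {x | (openGraph G ω).Reachable v x}

/-- The heavy-cluster threshold `p_h(G, Γ)`: the infimum of the `p` in `[0,1]` for which some
cluster is heavy (has infinite weight) with positive probability. -/
noncomputable def pHeavy (Γ : Subgroup (G ≃g G)) (o : V) : ℝ :=
  sInf {r : ℝ | ∃ p : I, (p : ℝ) = r ∧
    0 < bondPercolation G p {ω | ∃ v, weight Γ o (cluster G ω v) = ∞}}

end Pool.Agent.H41.WC
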