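import Pool.Agent.H41.WC.Light

set_option linter.unusedSectionVars false

namespace Pool.Agent.H41.WC

open MeasureTheory
open scoped ENNReal NNReal unitInterval

variable {A B : Type} [Fintype A] [Fintype B] [DecidableEq A] [DecidableEq B]
  {a₀ : A} {b₀ : B}

theorem valid_replicate (n : ℕ) : Valid a₀ b₀ (List.replicate n (Sum.inl a₀ : A ⊕ B)) := by
  induction n with
  | zero => trivial
  | succ n ih =>
    rw [List.replicate_succ]
    refine ⟨?_, ih⟩
    intro t ht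
    have : t = Sum.inl a₀ := by
      cases n with
      | zero => simp at ht
      | succ n => simpa [List.replicate_succ] using ht.symm
    subst this
    exact ⟨by simp, by simp⟩

/-- The ray that goes up from the root. -/
def ray (a₀ : A) (b₀ : B) (n : ℕ) : Vert a₀ b₀ := ⟨List.replicate n (Sum.inl a₀), valid_replicate n⟩

theorem ray_injective : Function.Injective (ray a₀ b₀) := by
  intro m n h
  have := congrArg (fun x : Vert a₀ b₀ => x.1.length) h
  simpa [ray] using this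

theorem infinite_vert (a₀ : A) (b₀ : B) : Infinite (Vert a₀ b₀) :=
  Infinite.of_injective _ (ray_injective (a₀ := a₀) (b₀ := b₀))

theorem reachable_root (a₀ : A) (b₀ : B) :
    ∀ (l : List (A ⊕ B)) (hl : Valid a₀ b₀ l), (tree a₀ b₀).Reachable (root a₀ b₀) ⟨l, hl⟩ := by
  intro l
  induction l with
  | nil => intro hl; exact SimpleGraph.Reachable.refl _
  | cons s w ih =>
    intro hl
    exact (ih hl.2).trans (SimpleGraph.Adj.reachable (par_or_tail s w))

theorem connected_tree (a₀ : A) (b₀ : B) : (tree a₀ b₀).Connected :=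
  { preconnected := fun x y => (reachable_root a₀ b₀ x.1 x.2).symm.trans
      (reachable_root a₀ b₀ y.1 y.2)
    nonempty := ⟨root a₀ b₀⟩ }

theorem finite_neighborSet (x : Vert a₀ b₀) : ((tree a₀ b₀).neighborSet x).Finite := by
  have h1 : {z : Vert a₀ b₀ | Par x.1 z.1}.Finite :=
    Set.finite_of_ncard_ne_zero (by rw [ncard_parents]; exact (card_ne a₀ b₀).1)
  have h2 : {z : Vert a₀ b₀ | Par z.1 x.1}.Finite :=
    Set.finite_of_ncard_ne_zero (by rw [ncard_children]; exact (card_ne a₀ b₀).2)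
  exact (h1.union h2).subset fun z hz => hz

theorem isClosed_parGroup (a₀ : A) (b₀ : B) : IsClosedInAut (parGroup a₀ b₀) := by
  unfold IsClosedInAut
  let _ : TopologicalSpace (Vert a₀ b₀) := ⊥
  have : DiscreteTopology (Vert a₀ b₀) := ⟨rfl⟩
  rw [isClosed_induced_iff]
  refine ⟨⋂ u : Vert a₀ b₀, ⋂ v : Vert a₀ b₀,
    {f | Par (f u).1 (f v).1 ↔ Par u.1 v.1}, ?_, ?_⟩
  · refine isClosed_iInter fun u => isClosed_iInter fun v => ?_
    have hcont : Continuous fun f : Vert a₀ b₀ → Vert a₀ b₀ => (f u, f v) :=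
      (continuous_apply u).prodMk (continuous_apply v)
    exact (isClosed_discrete {q : Vert a₀ b₀ × Vert a₀ b₀ | Par q.1.1 q.2.1 ↔ Par u.1 v.1}).preimage
      hcont
  · ext γ
    simp only [Set.mem_preimage, Set.mem_iInter]
    exact Iff.rfl

theorem hw_ray {κ : ℝ≥0} (n : ℕ) : hw κ (ray a₀ b₀ n).1 = κ ^ n := by
  induction n with
  | zero => rfl
  | succ n ih =>
    show κ * hw κ (ray a₀ b₀ n).1 = _
    rw [ih, pow_succ, mul_comm]

theorem weight_univ {κ : ℝ≥0} (hκ : 1 ≤ κ)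
    (hcard : (Fintype.card B : ℝ≥0) = κ ^ 2 * Fintype.card A) (o : Vert a₀ b₀) :
    weight (parGroup a₀ b₀) o Set.univ = ∞ := by
  have hκ0 : κ ≠ 0 := (lt_of_lt_of_le zero_lt_one hκ).ne'
  rw [weight_eq hκ0 hcard]
  set c : ℝ≥0 := (hw κ o.1 ^ 2)⁻¹ with hc
  have hc0 : c ≠ 0 := by
    rw [hc]
    exact inv_ne_zero (pow_ne_zero _ (hw_pos hκ0 _))
  let f : ℕ → (Set.univ : Set (Vert a₀ b₀)) := fun n => ⟨ray a₀ b₀ n, trivial⟩
  have hf : Function.Injective f := by
    intro m n h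
    exact ray_injective (congrArg Subtype.val h)
  rw [← top_le_iff]
  calc ∞ = ∑' _ : ℕ, (c : ℝ≥0∞) := by
        rw [ENNReal.tsum_const_eq_top_of_ne_zero]
        exact_mod_cast hc0
    _ ≤ ∑' n : ℕ, wl κ c (f n : Vert a₀ b₀).1 := by
        refine ENNReal.tsum_le_tsum fun n => ?_
        unfold wl
        rw [ENNReal.coe_le_coe]
        show c ≤ c * hw κ (ray a₀ b₀ n).1 ^ 2
        rw [hw_ray]
        exact le_mul_of_one_le_right zero_le (one_le_pow₀ (one_le_pow₀ hκ))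
    _ ≤ _ := ENNReal.tsum_comp_le_tsum_of_injective hf
        (fun x : (Set.univ : Set (Vert a₀ b₀)) => wl κ c (x : Vert a₀ b₀).1)

theorem heavy_at_one {κ : ℝ≥0} (hκ : 1 ≤ κ)
    (hcard : (Fintype.card B : ℝ≥0) = κ ^ 2 * Fintype.card A) (o : Vert a₀ b₀) :
    0 < bondPercolation (tree a₀ b₀) 1
      {ω | ∃ v, weight (parGroup a₀ b₀) o (cluster (tree a₀ b₀) ω v) = ∞} := by
  unfold bondPercolation
  simp only [ProbabilityTheory.bernoulliMeasure_one]
  rw [Measure.infinitePi_dirac, Measure.dirac_apply_of_mem]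
  · exact zero_lt_one
  · refine ⟨root a₀ b₀, ?_⟩
    have e : openGraph (tree a₀ b₀) (fun _ => true) = tree a₀ b₀ := by
      ext x y
      rw [adj_openGraph]
      exact ⟨fun h => h.1, fun h => ⟨h, rfl⟩⟩
    have : cluster (tree a₀ b₀) (fun _ => true) (root a₀ b₀) = Set.univ := by
      unfold cluster
      rw [e]
      ext x
      simp only [Set.mem_univ, iff_true]
      exact reachable_root a₀ b₀ x.1 x.2
    rw [this]
    exact weight_univ hκ hcard o

theorem le_pHeavy {κ : ℝ≥0} (hκ : 1 ≤ κ)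
    (hcard : (Fintype.card B : ℝ≥0) = κ ^ 2 * Fintype.card A) (o : Vert a₀ b₀) :
    (2 * (Fintype.card A * (κ : ℝ)))⁻¹ ≤ pHeavy (parGroup a₀ b₀) o := by
  have hκ0 : κ ≠ 0 := (lt_of_lt_of_le zero_lt_one hκ).ne'
  unfold pHeavy
  apply le_csInf
  · exact ⟨1, 1, rfl, heavy_at_one hκ hcard o⟩
  · rintro r ⟨p, rfl, hp⟩
    by_contra hlt
    rw [not_le] at hlt
    refine hp.ne' (no_heavy hκ0 hcard o p ?_)
    rw [sum_fac hκ0 hcard]
    have hpos : (0 : ℝ) < 2 * (Fintype.card A * (κ : ℝ)) := by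
      have h1 : (0 : ℝ) < Fintype.card A := by
        exact_mod_cast Nat.pos_of_ne_zero (card_ne a₀ b₀).1
      have h2 : (0 : ℝ) < (κ : ℝ) := by exact_mod_cast pos_iff_ne_zero.2 hκ0
      positivity
    have h3 : (p : ℝ) * (2 * (Fintype.card A * (κ : ℝ))) < 1 :=
      calc (p : ℝ) * (2 * (Fintype.card A * (κ : ℝ)))
          < (2 * (Fintype.card A * (κ : ℝ)))⁻¹ * (2 * (Fintype.card A * (κ : ℝ))) :=
            mul_lt_mul_of_pos_right hlt hpos
        _ = 1 := inv_mul_cancel₀ hpos.ne'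
    have h4 : ((unitInterval.toNNReal p * (2 * (Fintype.card A * κ)) : ℝ≥0) : ℝ) < 1 := by
      push_cast
      exact h3
    exact_mod_cast h4

theorem weight_finset_ne_top {κ : ℝ≥0} (hκ : κ ≠ 0)
    (hcard : (Fintype.card B : ℝ≥0) = κ ^ 2 * Fintype.card A) (o : Vert a₀ b₀)
    (F : Finset (Vert a₀ b₀)) :
    weight (parGroup a₀ b₀) o (F : Set (Vert a₀ b₀)) ≠ ∞ := by
  rw [weight_finset hκ hcard, ENNReal.sum_ne_top]
  intro x _
  exact ENNReal.coe_ne_top

theorem weight_finset_ne_zero {κ : ℝ≥0} (hκ : κ ≠ 0)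
    (hcard : (Fintype.card B : ℝ≥0) = κ ^ 2 * Fintype.card A) (o : Vert a₀ b₀)
    (F : Finset (Vert a₀ b₀)) (hF : F.Nonempty) :
    weight (parGroup a₀ b₀) o (F : Set (Vert a₀ b₀)) ≠ 0 := by
  rw [weight_finset hκ hcard]
  obtain ⟨x, hx⟩ := hF
  intro h
  rw [Finset.sum_eq_zero_iff] at h
  have h1 := h x hx
  unfold wl at h1
  rw [ENNReal.coe_eq_zero, mul_eq_zero] at h1
  rcases h1 with h1 | h1
  · exact inv_ne_zero (pow_ne_zero _ (hw_pos hκ _)) h1
  · exact pow_ne_zero _ (hw_pos hκ _) h1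

/-- The lower bound for the weighted Cheeger constant. -/
theorem le_cheeger {κ : ℝ≥0} (hκ : 1 ≤ κ)
    (hcard : (Fintype.card B : ℝ≥0) = κ ^ 2 * Fintype.card A) (hA : Fintype.card A = 2)
    (o : Vert a₀ b₀) :
    ((κ ^ 2 + 1 : ℝ≥0) : ℝ≥0∞) ≤ cheeger (parGroup a₀ b₀) o := by
  have hκ0 : κ ≠ 0 := (lt_of_lt_of_le zero_lt_one hκ).ne'
  unfold cheeger
  refine le_iInf fun F => le_iInf fun hF => ?_
  have h := expansion hκ hcard o F
  have ht := weight_finset_ne_top hκ0 hcard o F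
  have h0 := weight_finset_ne_zero hκ0 hcard o F hF
  set W := weight (parGroup a₀ b₀) o (F : Set (Vert a₀ b₀))
  rw [ENNReal.le_div_iff_mul_le (Or.inl h0) (Or.inl ht)]
  have e : ((Fintype.card A * (κ ^ 2 + 1) : ℝ≥0) : ℝ≥0∞) * W =
      ((κ ^ 2 + 1 : ℝ≥0) : ℝ≥0∞) * W + ((κ ^ 2 + 1 : ℝ≥0) : ℝ≥0∞) * W := by
    rw [hA]
    push_cast
    ring
  rw [e] at h
  exact (ENNReal.add_le_add_iff_right (ENNReal.mul_ne_top ENNReal.coe_ne_top ht)).1 h

theorem cheeger_ne_top {κ : ℝ≥0} (hκ : 1 ≤ κ)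
    (hcard : (Fintype.card B : ℝ≥0) = κ ^ 2 * Fintype.card A) (o : Vert a₀ b₀) :
    cheeger (parGroup a₀ b₀) o ≠ ∞ := by
  classical
  have hκ0 : κ ≠ 0 := (lt_of_lt_of_le zero_lt_one hκ).ne'
  unfold cheeger
  have hle : (⨅ (F : Finset (Vert a₀ b₀)) (_ : F.Nonempty),
      weight (parGroup a₀ b₀) o (extBoundary (tree a₀ b₀) F) /
        weight (parGroup a₀ b₀) o (F : Set (Vert a₀ b₀))) ≤
      weight (parGroup a₀ b₀) o (extBoundary (tree a₀ b₀) {o}) /
        weight (parGroup a₀ b₀) o (({o} : Finset (Vert a₀ b₀)) : Set (Vert a₀ b₀)) :=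
    iInf₂_le ({o} : Finset (Vert a₀ b₀)) (Finset.singleton_nonempty o)
  refine ne_top_of_le_ne_top ?_ hle
  refine ENNReal.div_ne_top ?_ (weight_finset_ne_zero hκ0 hcard o _ (Finset.singleton_nonempty o))
  have hsub : extBoundary (tree a₀ b₀) {o} ⊆
      ((finite_neighborSet o).toFinset : Set (Vert a₀ b₀)) := by
    rintro y ⟨-, x, hx, hadj⟩
    rw [Finset.mem_singleton] at hx
    subst hx
    simpa using hadj
  exact ne_top_of_le_ne_top (weight_finset_ne_top hκ0 hcard o _) (weight_mono _ o hsub)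

end Pool.Agent.H41.WC
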