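import Pool.Agent.H41.WC.Perc

set_option linter.unusedSectionVars false

namespace Pool.Agent.H41.WC

open MeasureTheory
open scoped ENNReal NNReal unitInterval

variable {A B : Type} [Fintype A] [Fintype B] [DecidableEq A] [DecidableEq B]
  {a₀ : A} {b₀ : B}

/-- The total square-root weight of the open paths going away from the root that start at `u`. -/
noncomputable def rootMass (κ : ℝ≥0) (u : Vert a₀ b₀) (ω : (tree a₀ b₀).edgeSet → Bool) : ℝ≥0∞ :=
  ∑' l : List (A ⊕ B), (pathEvent u l).indicator (fun _ => (hw κ (l ++ u.1) : ℝ≥0∞)) ω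

theorem lintegral_rootMass {κ : ℝ≥0} (p : I) (u : Vert a₀ b₀) :
    ∫⁻ ω, rootMass κ u ω ∂(bondPercolation (tree a₀ b₀) p) ≤
      (∑' n : ℕ, (((unitInterval.toNNReal p * ∑ s : A ⊕ B, fac κ s : ℝ≥0)) : ℝ≥0∞) ^ n) *
        (hw κ u.1 : ℝ≥0∞) := by
  unfold rootMass
  rw [lintegral_tsum fun l =>
    (measurable_const.indicator (pathEvent_spec p u l).1).aemeasurable]
  rw [← tsum_words, ← ENNReal.tsum_mul_right]
  refine ENNReal.tsum_le_tsum fun l => ?_
  rw [lintegral_indicator_const (pathEvent_spec p u l).1, hw_append, ENNReal.coe_mul]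
  calc _ ≤ (hw κ l * hw κ u.1 : ℝ≥0∞) * (unitInterval.toNNReal p : ℝ≥0∞) ^ l.length := by
        gcongr
        exact (pathEvent_spec p u l).2
    _ = _ := by ring

theorem ae_rootMass {κ : ℝ≥0} (p : I)
    (hp : unitInterval.toNNReal p * ∑ s : A ⊕ B, fac κ s < 1) :
    ∀ᵐ ω ∂(bondPercolation (tree a₀ b₀) p), ∀ u : Vert a₀ b₀, rootMass κ u ω ≠ ∞ := by
  rw [ae_all_iff]
  intro u
  have hm : Measurable (rootMass κ u) :=
    Measurable.tsum fun l => measurable_const.indicator (pathEvent_spec p u l).1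
  have hlt : ∫⁻ ω, rootMass κ u ω ∂(bondPercolation (tree a₀ b₀) p) ≠ ∞ := by
    refine ne_top_of_le_ne_top ?_ (lintegral_rootMass p u)
    refine ENNReal.mul_ne_top ?_ ENNReal.coe_ne_top
    rw [ENNReal.tsum_geometric]
    refine ENNReal.inv_ne_top.2 ?_
    rw [ne_eq, tsub_eq_zero_iff_le, not_le]
    exact_mod_cast hp
  filter_upwards [ae_lt_top hm hlt] with ω hω
  exact hω.ne

/-- The open descendants of `u`. -/
def openDesc (ω : (tree a₀ b₀).edgeSet → Bool) (u : Vert a₀ b₀) : Set (Vert a₀ b₀) :=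
  {x | ∃ l, x.1 = l ++ u.1 ∧ OpenAlong ω x l.length}

theorem cluster_subset (ω : (tree a₀ b₀).edgeSet → Bool) (v : Vert a₀ b₀) :
    cluster (tree a₀ b₀) ω v ⊆ ⋃ i ∈ Finset.range (v.1.length + 1), openDesc ω (tl^[i] v) := by
  intro x hx
  have hx' : Relation.ReflTransGen (openGraph (tree a₀ b₀) ω).Adj v x :=
    (SimpleGraph.reachable_iff_reflTransGen v x).1 hx
  induction hx' with
  | refl =>
    simp only [Set.mem_iUnion]
    refine ⟨0, by simp, [], by simp, ?_⟩
    intro i hi
    simp at hi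
  | @tail x y hvx hxy ih =>
    have ih := ih ((SimpleGraph.reachable_iff_reflTransGen v x).2 hvx)
    simp only [Set.mem_iUnion, Finset.mem_range] at ih ⊢
    obtain ⟨i, hi, l, hl, ho⟩ := ih
    rcases tree_adj_iff (openGraph_le ω hxy) with ⟨hne, hy⟩ | ⟨hne, hy⟩
    · -- `y` is a tree child of `x`
      refine ⟨i, hi, y.1.head hne :: l, ?_, ?_⟩
      · have : y.1 = y.1.head hne :: y.1.tail := (List.cons_head_tail hne).symm
        have h2 : y.1.tail = x.1 := congrArg Subtype.val hy
        rw [List.cons_append, ← hl, ← h2]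
        exact this
      · intro k hk
        cases k with
        | zero =>
          show (openGraph (tree a₀ b₀) ω).Adj (tl y) y
          rw [hy]
          exact hxy
        | succ k =>
          have h1 := ho k (by simpa using hk)
          have e1 : tl^[k + 1 + 1] y = tl^[k + 1] x := by
            rw [Function.iterate_succ_apply, hy]
          have e2 : tl^[k + 1] y = tl^[k] x := by
            rw [Function.iterate_succ_apply, hy]
          rw [e1, e2]
          exact h1
    · -- `y` is the tree parent of `x`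
      cases l with
      | nil =>
        have hxe : x = tl^[i] v := Subtype.ext (by simpa using hl)
        have hlen : i < v.1.length := by
          by_contra hge
          apply hne
          rw [hxe, iterate_tl]
          exact List.drop_eq_nil_of_le (by omega)
        refine ⟨i + 1, by omega, [], ?_, ?_⟩
        · rw [Function.iterate_succ_apply', ← hxe, hy]
          simp
        · intro k hk
          simp at hk
      | cons s l =>
        refine ⟨i, hi, l, ?_, ?_⟩
        · have : (tl x).1 = x.1.tail := rfl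
          rw [← hy, this, hl]
          rfl
        · intro k hk
          have h1 := ho (k + 1) (by simpa using hk)
          have e1 : tl^[k + 1 + 1] x = tl^[k + 1] y := by
            rw [Function.iterate_succ_apply, hy]
          have e2 : tl^[k + 1] x = tl^[k] y := by
            rw [Function.iterate_succ_apply, hy]
          rw [e1, e2] at h1
          exact h1

theorem weight_openDesc {κ : ℝ≥0} (hκ : κ ≠ 0)
    (hcard : (Fintype.card B : ℝ≥0) = κ ^ 2 * Fintype.card A) (o u : Vert a₀ b₀)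
    (ω : (tree a₀ b₀).edgeSet → Bool) (h : rootMass κ u ω ≠ ∞) :
    weight (parGroup a₀ b₀) o (openDesc ω u) ≠ ∞ := by
  classical
  rw [weight_eq hκ hcard]
  set c : ℝ≥0 := (hw κ o.1 ^ 2)⁻¹
  choose l hl ho using fun x : openDesc ω u => x.2
  have hinj : Function.Injective l := by
    intro x y hxy
    apply Subtype.ext
    apply Subtype.ext
    rw [hl x, hl y, hxy]
  have hmem : ∀ x : openDesc ω u, ω ∈ pathEvent u (l x) := by
    intro x
    have hv : Valid a₀ b₀ (l x ++ u.1) := by rw [← hl x]; exact x.1.2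
    refine ⟨hv, ?_⟩
    have e : (⟨l x ++ u.1, hv⟩ : Vert a₀ b₀) = x.1 := Subtype.ext (hl x).symm
    rw [e]
    exact ho x
  set M := rootMass κ u ω with hM
  have hterm : ∀ x : openDesc ω u, (hw κ x.1.1 : ℝ≥0∞) ≤ M := by
    intro x
    rw [hM, rootMass]
    refine le_trans ?_ (ENNReal.le_tsum (l x))
    rw [Set.indicator_of_mem (hmem x), hl x]
  have hsum : ∑' x : openDesc ω u, (hw κ x.1.1 : ℝ≥0∞) ≤ M := by
    rw [hM, rootMass]
    refine le_trans (le_of_eq ?_) (ENNReal.tsum_comp_le_tsum_of_injective hinj _)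
    refine tsum_congr fun x => ?_
    rw [Set.indicator_of_mem (hmem x), ← hl x]
  refine ne_top_of_le_ne_top (b := (c : ℝ≥0∞) * (M * M)) ?_ ?_
  · exact ENNReal.mul_ne_top ENNReal.coe_ne_top (ENNReal.mul_ne_top h h)
  · calc ∑' x : openDesc ω u, wl κ c x.1.1
        ≤ ∑' x : openDesc ω u, (c : ℝ≥0∞) * (M * (hw κ x.1.1 : ℝ≥0∞)) := by
          refine ENNReal.tsum_le_tsum fun x => ?_
          unfold wl
          rw [ENNReal.coe_mul, ENNReal.coe_pow, pow_two]
          gcongr
          exact hterm x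
      _ = (c : ℝ≥0∞) * (M * ∑' x : openDesc ω u, (hw κ x.1.1 : ℝ≥0∞)) := by
          rw [ENNReal.tsum_mul_left, ENNReal.tsum_mul_left]
      _ ≤ _ := by gcongr

theorem weight_mono (Γ : Subgroup (tree a₀ b₀ ≃g tree a₀ b₀)) (o : Vert a₀ b₀)
    {K L : Set (Vert a₀ b₀)} (h : K ⊆ L) : weight Γ o K ≤ weight Γ o L :=
  ENNReal.tsum_mono_subtype (fun x => (relWeight Γ o x : ℝ≥0∞)) h

theorem weight_biUnion (Γ : Subgroup (tree a₀ b₀ ≃g tree a₀ b₀)) (o : Vert a₀ b₀)
    (s : Finset ℕ) (K : ℕ → Set (Vert a₀ b₀)) :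
    weight Γ o (⋃ i ∈ s, K i) ≤ ∑ i ∈ s, weight Γ o (K i) :=
  ENNReal.tsum_biUnion_le (fun x => (relWeight Γ o x : ℝ≥0∞)) s K

theorem cluster_light {κ : ℝ≥0} (hκ : κ ≠ 0)
    (hcard : (Fintype.card B : ℝ≥0) = κ ^ 2 * Fintype.card A) (o v : Vert a₀ b₀)
    (ω : (tree a₀ b₀).edgeSet → Bool) (h : ∀ u : Vert a₀ b₀, rootMass κ u ω ≠ ∞) :
    weight (parGroup a₀ b₀) o (cluster (tree a₀ b₀) ω v) ≠ ∞ := by
  refine ne_top_of_le_ne_top ?_
    ((weight_mono _ o (cluster_subset ω v)).trans (weight_biUnion _ o _ _))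
  rw [ENNReal.sum_ne_top]
  intro i _
  exact weight_openDesc hκ hcard o _ ω (h _)

/-- Below `1 / (2 |A| κ)` there is almost surely no heavy cluster. -/
theorem no_heavy {κ : ℝ≥0} (hκ : κ ≠ 0)
    (hcard : (Fintype.card B : ℝ≥0) = κ ^ 2 * Fintype.card A) (o : Vert a₀ b₀) (p : I)
    (hp : unitInterval.toNNReal p * ∑ s : A ⊕ B, fac κ s < 1) :
    bondPercolation (tree a₀ b₀) p
      {ω | ∃ v, weight (parGroup a₀ b₀) o (cluster (tree a₀ b₀) ω v) = ∞} = 0 := by
  have := ae_rootMass (a₀ := a₀) (b₀ := b₀) p hp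
  rw [ae_iff] at this
  refine measure_mono_null ?_ this
  rintro ω ⟨v, hv⟩ h
  exact cluster_light hκ hcard o v ω h hv

end Pool.Agent.H41.WC
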