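import Pool.Agent.H41.WC.Cheeger

set_option linter.unusedSectionVars false

namespace Pool.Agent.H41.WC

open MeasureTheory
open scoped ENNReal NNReal unitInterval

section general

variable {V : Type*} {G : SimpleGraph V}

theorem adj_openGraph {ω : G.edgeSet → Bool} {x y : V} :
    (openGraph G ω).Adj x y ↔ ∃ h : G.Adj x y, ω ⟨s(x, y), h⟩ = true := by
  unfold openGraph
  rw [SimpleGraph.fromEdgeSet_adj]
  constructor
  · rintro ⟨⟨h, h'⟩, -⟩
    exact ⟨h, h'⟩
  · rintro ⟨h, h'⟩
    exact ⟨⟨h, h'⟩, h.ne⟩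

theorem openGraph_le (ω : G.edgeSet → Bool) : openGraph G ω ≤ G := by
  intro x y h
  obtain ⟨h, -⟩ := adj_openGraph.1 h
  exact h

/-- The probability that all the edges of a finite set are open. -/
theorem perc_all_open (p : I) (S : Finset G.edgeSet) :
    bondPercolation G p {ω | ∀ e ∈ S, ω e = true} = (unitInterval.toNNReal p : ℝ≥0∞) ^ S.card := by
  have h : {ω : G.edgeSet → Bool | ∀ e ∈ S, ω e = true} =
      Set.pi (S : Set G.edgeSet) (fun _ => ({true} : Set Bool)) := by
    ext ω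
    simp [Set.mem_pi]
  rw [h]
  unfold bondPercolation
  rw [Measure.infinitePi_pi _ (fun _ _ => MeasurableSet.singleton _)]
  rw [Finset.prod_congr rfl (g := fun _ => (unitInterval.toNNReal p : ℝ≥0∞))]
  · rw [Finset.prod_const]
  · intro e he
    exact ProbabilityTheory.bernoulliMeasure_apply_of_mem_of_notMem p
      (MeasurableSet.singleton _) rfl (by simp)

theorem measurableSet_all_open (S : Finset G.edgeSet) :
    MeasurableSet {ω : G.edgeSet → Bool | ∀ e ∈ S, ω e = true} := by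
  have h : {ω : G.edgeSet → Bool | ∀ e ∈ S, ω e = true} =
      ⋂ e ∈ S, (fun ω : G.edgeSet → Bool => ω e) ⁻¹' {true} := by
    ext ω
    simp
  rw [h]
  exact Finset.measurableSet_biInter _ fun e _ =>
    (measurable_pi_apply e) (MeasurableSet.singleton _)

instance (p : I) : IsProbabilityMeasure (bondPercolation G p) := by
  unfold bondPercolation
  infer_instance

end general

section tree

variable {A B : Type} [Fintype A] [Fintype B] [DecidableEq A] [DecidableEq B]
  {a₀ : A} {b₀ : B}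

theorem valid_tail {l : List (A ⊕ B)} (h : Valid a₀ b₀ l) : Valid a₀ b₀ l.tail := by
  cases l with
  | nil => exact h
  | cons s w => exact h.2

/-- The tree parent. -/
def tl (x : Vert a₀ b₀) : Vert a₀ b₀ := ⟨x.1.tail, valid_tail x.2⟩

theorem iterate_tl (x : Vert a₀ b₀) (n : ℕ) : (tl^[n] x).1 = x.1.drop n := by
  induction n with
  | zero => rfl
  | succ n ih =>
    rw [Function.iterate_succ_apply']
    show (tl^[n] x).1.tail = _
    rw [ih, List.tail_drop]

/-- The `n` edges above `x` in the rooted tree are open. -/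
def OpenAlong (ω : (tree a₀ b₀).edgeSet → Bool) (x : Vert a₀ b₀) (n : ℕ) : Prop :=
  ∀ i < n, (openGraph (tree a₀ b₀) ω).Adj (tl^[i + 1] x) (tl^[i] x)

theorem tree_adj_tl (x : Vert a₀ b₀) (hx : x.1 ≠ []) : (tree a₀ b₀).Adj (tl x) x := by
  obtain ⟨l, hl⟩ := x
  cases l with
  | nil => exact absurd rfl hx
  | cons s w => exact par_or_tail s w

theorem tree_adj_iff {x y : Vert a₀ b₀} (h : (tree a₀ b₀).Adj x y) :
    (y.1 ≠ [] ∧ tl y = x) ∨ (x.1 ≠ [] ∧ tl x = y) := by
  rcases h with (⟨i, h⟩ | ⟨j, h⟩) | (⟨i, h⟩ | ⟨j, h⟩)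
  · exact Or.inl ⟨by simp [h], Subtype.ext (by simp [tl, h])⟩
  · exact Or.inr ⟨by simp [h], Subtype.ext (by simp [tl, h])⟩
  · exact Or.inr ⟨by simp [h], Subtype.ext (by simp [tl, h])⟩
  · exact Or.inl ⟨by simp [h], Subtype.ext (by simp [tl, h])⟩

/-- The finite set of the `n` edges above `x`. -/
theorem exists_edges (x : Vert a₀ b₀) (n : ℕ) (hn : n ≤ x.1.length) :
    ∃ S : Finset (tree a₀ b₀).edgeSet, S.card = n ∧
      ∀ ω, OpenAlong ω x n ↔ ∀ e ∈ S, ω e = true := by
  classical
  have hne : ∀ i : Fin n, (tl^[(i : ℕ)] x).1 ≠ [] := by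
    intro i h
    rw [iterate_tl] at h
    have := congrArg List.length h
    rw [List.length_drop] at this
    simp only [List.length_nil] at this
    omega
  let e : Fin n → (tree a₀ b₀).edgeSet := fun i =>
    ⟨s(tl^[(i : ℕ) + 1] x, tl^[(i : ℕ)] x), by
      rw [SimpleGraph.mem_edgeSet, Function.iterate_succ_apply']
      exact tree_adj_tl _ (hne i)⟩
  have hinj : Function.Injective e := by
    intro i j hij
    have h : s(tl^[(i : ℕ) + 1] x, tl^[(i : ℕ)] x) = s(tl^[(j : ℕ) + 1] x, tl^[(j : ℕ)] x) :=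
      congrArg Subtype.val hij
    have hl : ∀ k, (tl^[k] x).1.length = x.1.length - k := fun k => by
      rw [iterate_tl, List.length_drop]
    have hi := i.2
    have hj := j.2
    rw [Sym2.eq_iff] at h
    rcases h with ⟨h1, h2⟩ | ⟨h1, h2⟩
    · have := congrArg (fun z : Vert a₀ b₀ => z.1.length) h2
      simp only [hl] at this
      exact Fin.ext (by omega)
    · have e1 := congrArg (fun z : Vert a₀ b₀ => z.1.length) h1
      have e2 := congrArg (fun z : Vert a₀ b₀ => z.1.length) h2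
      simp only [hl] at e1 e2
      omega
  refine ⟨Finset.univ.image e, ?_, ?_⟩
  · rw [Finset.card_image_of_injective _ hinj]
    simp
  · intro ω
    constructor
    · intro h b hb
      rw [Finset.mem_image] at hb
      obtain ⟨i, -, rfl⟩ := hb
      obtain ⟨_, h2⟩ := adj_openGraph.1 (h i i.2)
      exact h2
    · intro h i hi
      have hi' := h (e ⟨i, hi⟩) (Finset.mem_image_of_mem _ (Finset.mem_univ _))
      exact adj_openGraph.2 ⟨(e ⟨i, hi⟩).2, hi'⟩

/-- The set of configurations for which all the edges from `l ++ u` down to `u` are open. -/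
def pathEvent (u : Vert a₀ b₀) (l : List (A ⊕ B)) : Set ((tree a₀ b₀).edgeSet → Bool) :=
  {ω | ∃ h : Valid a₀ b₀ (l ++ u.1), OpenAlong ω ⟨l ++ u.1, h⟩ l.length}

theorem pathEvent_spec (p : I) (u : Vert a₀ b₀) (l : List (A ⊕ B)) :
    MeasurableSet (pathEvent u l) ∧
      bondPercolation (tree a₀ b₀) p (pathEvent u l) ≤
        (unitInterval.toNNReal p : ℝ≥0∞) ^ l.length := by
  by_cases h : Valid a₀ b₀ (l ++ u.1)
  · obtain ⟨S, hS, hω⟩ := exists_edges (⟨l ++ u.1, h⟩ : Vert a₀ b₀) l.length (by simp)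
    have e : pathEvent u l = {ω | ∀ e ∈ S, ω e = true} := by
      ext ω
      constructor
      · rintro ⟨h', hh⟩
        exact (hω ω).1 hh
      · intro hh
        exact ⟨h, (hω ω).2 hh⟩
    rw [e, perc_all_open, hS]
    exact ⟨measurableSet_all_open S, le_rfl⟩
  · have e : pathEvent u l = ∅ := by
      ext ω
      constructor
      · rintro ⟨h', -⟩
        exact absurd h' h
      · intro hh
        exact absurd hh (by simp)
    rw [e]
    simp

theorem hw_append (κ : ℝ≥0) (l w : List (A ⊕ B)) : hw κ (l ++ w) = hw κ l * hw κ w := by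
  induction l with
  | nil => simp [hw]
  | cons s l ih =>
    rw [List.cons_append, hw_cons, hw_cons, ih, mul_assoc]

theorem hw_ofFn (κ : ℝ≥0) (n : ℕ) (f : Fin n → A ⊕ B) :
    hw κ (List.ofFn f) = ∏ i, fac κ (f i) := by
  induction n with
  | zero => simp [hw]
  | succ n ih =>
    rw [List.ofFn_succ, hw_cons, ih, Fin.prod_univ_succ]

/-- The generating function of all words. -/
theorem tsum_words (κ r : ℝ≥0) :
    ∑' l : List (A ⊕ B), ((r : ℝ≥0∞) ^ l.length * (hw κ l : ℝ≥0∞)) =
      ∑' n : ℕ, (((r * ∑ s : A ⊕ B, fac κ s : ℝ≥0)) : ℝ≥0∞) ^ n := by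
  rw [← (List.equivSigmaTuple (α := A ⊕ B)).symm.tsum_eq, ENNReal.tsum_sigma']
  refine tsum_congr fun n => ?_
  rw [tsum_fintype]
  have : ∀ f : Fin n → A ⊕ B,
      ((r : ℝ≥0∞) ^ (List.equivSigmaTuple.symm ⟨n, f⟩ : List (A ⊕ B)).length *
        (hw κ (List.equivSigmaTuple.symm ⟨n, f⟩ : List (A ⊕ B)) : ℝ≥0∞)) =
      ((r ^ n * ∏ i, fac κ (f i) : ℝ≥0) : ℝ≥0∞) := by
    intro f
    have e : (List.equivSigmaTuple.symm ⟨n, f⟩ : List (A ⊕ B)) = List.ofFn f := rfl
    rw [e, hw_ofFn, List.length_ofFn]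
    push_cast
    rfl
  simp only [this]
  rw [← ENNReal.ofNNReal_finsetSum, ← Finset.mul_sum, ← ENNReal.coe_pow, mul_pow,
    Fintype.sum_pow]

end tree

end Pool.Agent.H41.WC
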