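import Mathlib

/-!
# The regular tree in which every vertex has `|A|` parents and `|B|` children

Vertices are reduced words.  The letter `inl i` is a step to a parent, the letter `inr j` is a step
to a child.  After a step to a parent, the step `inr b₀` would lead back, so it is not allowed;
after a step to a child, the step `inl a₀` would lead back, so it is not allowed.
The last step of a word is the head of the list.
-/

set_option linter.unusedSectionVars false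

namespace Pool.Agent.H41.WC

variable {A B : Type}

/-- The step `s` may follow the step `t`. -/
def ok (a₀ : A) (b₀ : B) (s t : A ⊕ B) : Prop :=
  ¬ (s = Sum.inr b₀ ∧ t.isLeft = true) ∧ ¬ (s = Sum.inl a₀ ∧ t.isRight = true)

/-- Reduced words. -/
def Valid (a₀ : A) (b₀ : B) : List (A ⊕ B) → Prop
  | [] => True
  | s :: w => (∀ t ∈ w.head?, ok a₀ b₀ s t) ∧ Valid a₀ b₀ w

/-- `v` is a parent of `u`. -/
def Par (u v : List (A ⊕ B)) : Prop := (∃ i, v = Sum.inl i :: u) ∨ (∃ j, u = Sum.inr j :: v)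

/-- The vertices. -/
abbrev Vert (a₀ : A) (b₀ : B) : Type := {l : List (A ⊕ B) // Valid a₀ b₀ l}

theorem not_par_self (u : List (A ⊕ B)) : ¬ Par u u := by
  rintro (⟨i, h⟩ | ⟨j, h⟩)
  · exact absurd (congrArg List.length h) (by simp)
  · exact absurd (congrArg List.length h) (by simp)

/-- The tree. -/
def tree (a₀ : A) (b₀ : B) : SimpleGraph (Vert a₀ b₀) where
  Adj u v := Par u.1 v.1 ∨ Par v.1 u.1
  symm := ⟨fun _ _ h => h.symm⟩
  loopless := ⟨fun u h => by rcases h with h | h <;> exact not_par_self _ h⟩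

/-- The automorphisms of the tree that preserve the parent relation. -/
def parGroup (a₀ : A) (b₀ : B) : Subgroup (tree a₀ b₀ ≃g tree a₀ b₀) where
  carrier := {γ | ∀ u v, Par (γ u).1 (γ v).1 ↔ Par u.1 v.1}
  mul_mem' := by
    intro γ δ hγ hδ u v
    exact (hγ (δ u) (δ v)).trans (hδ u v)
  one_mem' := by intro u v; exact Iff.rfl
  inv_mem' := by
    intro γ hγ u v
    have h := hγ (γ⁻¹ u) (γ⁻¹ v)
    have e : ∀ x, γ (γ⁻¹ x) = x := fun x => γ.apply_symm_apply x
    rw [e, e] at h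
    exact h.symm

theorem mem_parGroup {a₀ : A} {b₀ : B} {γ : tree a₀ b₀ ≃g tree a₀ b₀} :
    γ ∈ parGroup a₀ b₀ ↔ ∀ u v, Par (γ u).1 (γ v).1 ↔ Par u.1 v.1 := Iff.rfl

/-- A way to construct elements of `parGroup`. -/
theorem exists_mem_parGroup {a₀ : A} {b₀ : B} (f g : List (A ⊕ B) → List (A ⊕ B))
    (hf : ∀ l, Valid a₀ b₀ l → Valid a₀ b₀ (f l)) (hg : ∀ l, Valid a₀ b₀ l → Valid a₀ b₀ (g l))
    (hgf : ∀ l, Valid a₀ b₀ l → g (f l) = l) (hfg : ∀ l, Valid a₀ b₀ l → f (g l) = l)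
    (pf : ∀ u v, Par u v → Par (f u) (f v)) (pg : ∀ u v, Par u v → Par (g u) (g v)) :
    ∃ γ ∈ parGroup a₀ b₀, ∀ x : Vert a₀ b₀, (γ x).1 = f x.1 := by
  have key : ∀ u v : Vert a₀ b₀, Par (f u.1) (f v.1) ↔ Par u.1 v.1 := by
    intro u v
    refine ⟨fun h => ?_, pf _ _⟩
    have := pg _ _ h
    rwa [hgf _ u.2, hgf _ v.2] at this
  let e : Vert a₀ b₀ ≃ Vert a₀ b₀ :=
    { toFun := fun x => ⟨f x.1, hf _ x.2⟩
      invFun := fun x => ⟨g x.1, hg _ x.2⟩
      left_inv := fun x => Subtype.ext (hgf _ x.2)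
      right_inv := fun x => Subtype.ext (hfg _ x.2) }
  refine ⟨⟨e, ?_⟩, ?_, fun x => rfl⟩
  · intro u v
    exact or_congr (key u v) (key v u)
  · intro u v
    exact key u v

section shift

variable [DecidableEq A] [DecidableEq B]

/-- The shift: prolongs the word before its first letter by `c`, or erases the first letter if
it is `c'` and the only letter. -/
def sh (c c' : A ⊕ B) : List (A ⊕ B) → List (A ⊕ B)
  | [] => [c]
  | s :: w => if w = [] ∧ s = c' then [] else s :: sh c c' w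

/-- The two letters that cancel. -/
def Pair (a₀ : A) (b₀ : B) (c c' : A ⊕ B) : Prop :=
  (c = Sum.inl a₀ ∧ c' = Sum.inr b₀) ∨ (c = Sum.inr b₀ ∧ c' = Sum.inl a₀)

theorem Pair.swap {a₀ : A} {b₀ : B} {c c' : A ⊕ B} (h : Pair a₀ b₀ c c') : Pair a₀ b₀ c' c :=
  h.symm.imp And.symm And.symm

theorem Pair.ok_iff {a₀ : A} {b₀ : B} {c c' : A ⊕ B} (h : Pair a₀ b₀ c c') (s : A ⊕ B) :
    ok a₀ b₀ s c ↔ s ≠ c' := by
  rcases h with ⟨rfl, rfl⟩ | ⟨rfl, rfl⟩ <;> simp [ok]

theorem sh_cons_of {c c' s : A ⊕ B} {w : List (A ⊕ B)} (h : ¬ (w = [] ∧ s = c')) :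
    sh c c' (s :: w) = s :: sh c c' w := by
  simp only [sh, if_neg h]

theorem sh_single (c c' : A ⊕ B) : sh c c' [c'] = [] := by simp [sh]

theorem sh_nil (c c' : A ⊕ B) : sh c c' [] = [c] := rfl

theorem valid_sh {a₀ : A} {b₀ : B} {c c' : A ⊕ B} (h : Pair a₀ b₀ c c') :
    ∀ l, Valid a₀ b₀ l → Valid a₀ b₀ (sh c c' l) := by
  intro l
  induction l with
  | nil => intro _; simp [sh, Valid]
  | cons s w ih =>
    intro hl
    by_cases h0 : w = [] ∧ s = c'
    · obtain ⟨rfl, rfl⟩ := h0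
      simp [sh, Valid]
    · rw [sh_cons_of h0]
      refine ⟨?_, ih hl.2⟩
      intro t ht
      cases w with
      | nil =>
        simp only [sh, List.head?_cons, Option.mem_def, Option.some.injEq] at ht
        subst ht
        rw [h.ok_iff]
        intro hs
        exact h0 ⟨rfl, hs⟩
      | cons t' w' =>
        by_cases h1 : w' = [] ∧ t' = c'
        · obtain ⟨rfl, rfl⟩ := h1
          simp [sh] at ht
        · rw [sh_cons_of h1] at ht
          simp only [List.head?_cons, Option.mem_def, Option.some.injEq] at ht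
          subst ht
          exact hl.1 _ (by simp)

theorem sh_sh {a₀ : A} {b₀ : B} {c c' : A ⊕ B} (h : Pair a₀ b₀ c c') :
    ∀ l, Valid a₀ b₀ l → sh c' c (sh c c' l) = l := by
  intro l
  induction l with
  | nil => intro _; simp [sh]
  | cons s w ih =>
    intro hl
    by_cases h0 : w = [] ∧ s = c'
    · obtain ⟨rfl, rfl⟩ := h0
      simp [sh]
    · rw [sh_cons_of h0]
      have h1 : ¬ (sh c c' w = [] ∧ s = c) := by
        rintro ⟨hw, rfl⟩
        cases w with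
        | nil => simp [sh] at hw
        | cons t w' =>
          by_cases h2 : w' = [] ∧ t = c'
          · obtain ⟨rfl, rfl⟩ := h2
            have := hl.1 t (by simp)
            rw [h.swap.ok_iff] at this
            exact this rfl
          · rw [sh_cons_of h2] at hw
            simp at hw
      rw [sh_cons_of h1, ih hl.2]

theorem par_sh {a₀ : A} {b₀ : B} {c c' : A ⊕ B} (h : Pair a₀ b₀ c c') :
    ∀ u v, Par u v → Par (sh c c' u) (sh c c' v) := by
  rintro u v (⟨i, rfl⟩ | ⟨j, rfl⟩)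
  · by_cases h0 : u = [] ∧ Sum.inl i = c'
    · obtain ⟨rfl, rfl⟩ := h0
      rcases h with ⟨h1, h2⟩ | ⟨h1, h2⟩
      · simp at h2
      · right
        refine ⟨b₀, ?_⟩
        simp [sh, h1]
    · rw [sh_cons_of h0]
      exact Or.inl ⟨i, rfl⟩
  · by_cases h0 : v = [] ∧ Sum.inr j = c'
    · obtain ⟨rfl, rfl⟩ := h0
      rcases h with ⟨h1, h2⟩ | ⟨h1, h2⟩
      · left
        refine ⟨a₀, ?_⟩
        simp [sh, h1]
      · simp at h2
    · rw [sh_cons_of h0]
      exact Or.inr ⟨j, rfl⟩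

theorem exists_shift {a₀ : A} {b₀ : B} {c c' : A ⊕ B} (h : Pair a₀ b₀ c c') :
    ∃ γ ∈ parGroup a₀ b₀, ∀ x : Vert a₀ b₀, (γ x).1 = sh c c' x.1 :=
  exists_mem_parGroup _ (sh c' c) (valid_sh h) (valid_sh h.swap) (sh_sh h) (sh_sh h.swap)
    (par_sh h) (par_sh h.swap)

end shift

section rootPerm

/-- Applies the permutations `σ`, `τ` to the first letter of the word. -/
def rp (σ : Equiv.Perm A) (τ : Equiv.Perm B) : List (A ⊕ B) → List (A ⊕ B)
  | [] => []
  | [s] => [Sum.map σ τ s]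
  | s :: t :: w => s :: rp σ τ (t :: w)

theorem rp_rp (σ σ' : Equiv.Perm A) (τ τ' : Equiv.Perm B) (h1 : ∀ i, σ' (σ i) = i)
    (h2 : ∀ j, τ' (τ j) = j) : ∀ l, rp σ' τ' (rp σ τ l) = l := by
  intro l
  induction l with
  | nil => rfl
  | cons s w ih =>
    cases w with
    | nil =>
      rcases s with i | j
      · simp [rp, h1]
      · simp [rp, h2]
    | cons t w' =>
      cases w' with
      | nil =>
        simp only [rp]
        simp only [rp] at ih
        rw [ih]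
      | cons t' w'' =>
        simp only [rp] at ih ⊢
        rw [ih]

theorem ok_map (a₀ : A) (b₀ : B) (σ : Equiv.Perm A) (τ : Equiv.Perm B) (s t : A ⊕ B) :
    ok a₀ b₀ s (Sum.map σ τ t) ↔ ok a₀ b₀ s t := by
  rcases t with i | j <;> simp [ok]

theorem valid_rp {a₀ : A} {b₀ : B} (σ : Equiv.Perm A) (τ : Equiv.Perm B) :
    ∀ l, Valid a₀ b₀ l → Valid a₀ b₀ (rp σ τ l) := by
  intro l
  induction l with
  | nil => intro h; exact h
  | cons s w ih =>
    intro hl
    cases w with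
    | nil => simp [rp, Valid]
    | cons t w' =>
      refine ⟨?_, ih hl.2⟩
      have hst := hl.1 t (by simp)
      intro t' ht'
      cases w' with
      | nil =>
        simp only [rp, List.head?_cons, Option.mem_def, Option.some.injEq] at ht'
        subst ht'
        rwa [ok_map]
      | cons t'' w'' =>
        simp only [rp, List.head?_cons, Option.mem_def, Option.some.injEq] at ht'
        subst ht'
        exact hst

theorem par_rp (σ : Equiv.Perm A) (τ : Equiv.Perm B) :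
    ∀ u v : List (A ⊕ B), Par u v → Par (rp σ τ u) (rp σ τ v) := by
  rintro u v (⟨i, rfl⟩ | ⟨j, rfl⟩)
  · cases u with
    | nil => exact Or.inl ⟨σ i, by simp [rp]⟩
    | cons t w => exact Or.inl ⟨i, by simp [rp]⟩
  · cases v with
    | nil => exact Or.inr ⟨τ j, by simp [rp]⟩
    | cons t w => exact Or.inr ⟨j, by simp [rp]⟩

theorem exists_rootPerm (a₀ : A) (b₀ : B) (σ : Equiv.Perm A) (τ : Equiv.Perm B) :
    ∃ γ ∈ parGroup a₀ b₀, ∀ x : Vert a₀ b₀, (γ x).1 = rp σ τ x.1 :=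
  exists_mem_parGroup _ (rp σ.symm τ.symm) (valid_rp σ τ) (valid_rp _ _)
    (fun l _ => rp_rp _ _ _ _ (by simp) (by simp) l)
    (fun l _ => rp_rp _ _ _ _ (by simp) (by simp) l)
    (par_rp _ _) (par_rp _ _)

end rootPerm

/-- The root. -/
def root (a₀ : A) (b₀ : B) : Vert a₀ b₀ := ⟨[], trivial⟩

theorem valid_single (a₀ : A) (b₀ : B) (s : A ⊕ B) : Valid a₀ b₀ [s] := by simp [Valid]

theorem transitive_par [DecidableEq A] [DecidableEq B] (a₀ : A) (b₀ : B) :
    ∀ x : Vert a₀ b₀, ∃ γ ∈ parGroup a₀ b₀, γ (root a₀ b₀) = x := by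
  rintro ⟨l, hl⟩
  induction l with
  | nil => exact ⟨1, one_mem _, rfl⟩
  | cons s w ih =>
    obtain ⟨g, hg, hgr⟩ := ih hl.2
    have hadj : (tree a₀ b₀).Adj ⟨w, hl.2⟩ ⟨s :: w, hl⟩ := by
      rcases s with i | j
      · exact Or.inl (Or.inl ⟨i, rfl⟩)
      · exact Or.inr (Or.inr ⟨j, rfl⟩)
    rw [← hgr] at hadj
    have e : g (g⁻¹ ⟨s :: w, hl⟩) = ⟨s :: w, hl⟩ := g.apply_symm_apply _
    rw [← e, g.map_rel_iff] at hadj
    obtain ⟨s', hs'⟩ : ∃ s', (g⁻¹ ⟨s :: w, hl⟩).1 = [s'] := by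
      rcases hadj with (⟨i, h⟩ | ⟨j, h⟩) | (⟨i, h⟩ | ⟨j, h⟩)
      · exact ⟨_, h⟩
      · simp [root] at h
      · simp [root] at h
      · exact ⟨_, h⟩
    obtain ⟨h, hh, hr⟩ : ∃ h ∈ parGroup a₀ b₀, (h (root a₀ b₀)).1 = [s'] := by
      rcases s' with i | j
      · obtain ⟨h1, m1, e1⟩ := exists_shift (a₀ := a₀) (b₀ := b₀) (Or.inl ⟨rfl, rfl⟩)
        obtain ⟨h2, m2, e2⟩ := exists_rootPerm a₀ b₀ (Equiv.swap a₀ i) (Equiv.refl B)
        refine ⟨h2 * h1, mul_mem m2 m1, ?_⟩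
        show (h2 (h1 (root a₀ b₀))).1 = _
        rw [e2, e1]
        simp [root, sh, rp]
      · obtain ⟨h1, m1, e1⟩ := exists_shift (a₀ := a₀) (b₀ := b₀) (Or.inr ⟨rfl, rfl⟩)
        obtain ⟨h2, m2, e2⟩ := exists_rootPerm a₀ b₀ (Equiv.refl A) (Equiv.swap b₀ j)
        refine ⟨h2 * h1, mul_mem m2 m1, ?_⟩
        show (h2 (h1 (root a₀ b₀))).1 = _
        rw [e2, e1]
        simp [root, sh, rp]
    refine ⟨g * h, mul_mem hg hh, ?_⟩
    show g (h (root a₀ b₀)) = _
    have : h (root a₀ b₀) = g⁻¹ ⟨s :: w, hl⟩ := Subtype.ext (hr.trans hs'.symm)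
    rw [this, e]

theorem transitive_par' [DecidableEq A] [DecidableEq B] (a₀ : A) (b₀ : B) (x y : Vert a₀ b₀) :
    ∃ γ ∈ parGroup a₀ b₀, γ x = y := by
  obtain ⟨g, hg, rfl⟩ := transitive_par a₀ b₀ x
  obtain ⟨h, hh, rfl⟩ := transitive_par a₀ b₀ y
  refine ⟨h * g⁻¹, mul_mem hh (inv_mem hg), ?_⟩
  show h (g⁻¹ (g (root a₀ b₀))) = _
  exact congrArg h (g.symm_apply_apply _)

/-- The stabilizer of a vertex acts transitively on its parents. -/
theorem transitive_parents [DecidableEq A] [DecidableEq B] (a₀ : A) (b₀ : B)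
    (x y z : Vert a₀ b₀) (hy : Par x.1 y.1) (hz : Par x.1 z.1) :
    ∃ γ ∈ parGroup a₀ b₀, γ x = x ∧ γ y = z := by
  obtain ⟨g, hg, rfl⟩ := transitive_par a₀ b₀ x
  have ey : g (g⁻¹ y) = y := g.apply_symm_apply _
  have ez : g (g⁻¹ z) = z := g.apply_symm_apply _
  have hy' : Par (root a₀ b₀).1 (g⁻¹ y).1 := by
    rw [← mem_parGroup.1 hg, ey]; exact hy
  have hz' : Par (root a₀ b₀).1 (g⁻¹ z).1 := by
    rw [← mem_parGroup.1 hg, ez]; exact hz
  obtain ⟨i, hi⟩ | ⟨j, hj⟩ := hy'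
  · obtain ⟨i', hi'⟩ | ⟨j, hj⟩ := hz'
    · obtain ⟨h, mh, eh⟩ := exists_rootPerm a₀ b₀ (Equiv.swap i i') (Equiv.refl B)
      have e0 : h (root a₀ b₀) = root a₀ b₀ := Subtype.ext (by rw [eh]; rfl)
      have e1 : h (g⁻¹ y) = g⁻¹ z := Subtype.ext (by rw [eh, hi, hi']; simp [root, rp])
      refine ⟨g * h * g⁻¹, mul_mem (mul_mem hg mh) (inv_mem hg), ?_, ?_⟩
      · show g (h (g⁻¹ (g (root a₀ b₀)))) = _
        have : g⁻¹ (g (root a₀ b₀)) = root a₀ b₀ := g.symm_apply_apply _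
        rw [this, e0]
      · show g (h (g⁻¹ y)) = _
        rw [e1, ez]
    · simp [root] at hj
  · simp [root] at hj

/-- The stabilizer of a vertex acts transitively on its children. -/
theorem transitive_children [DecidableEq A] [DecidableEq B] (a₀ : A) (b₀ : B)
    (x y z : Vert a₀ b₀) (hy : Par y.1 x.1) (hz : Par z.1 x.1) :
    ∃ γ ∈ parGroup a₀ b₀, γ x = x ∧ γ y = z := by
  obtain ⟨g, hg, rfl⟩ := transitive_par a₀ b₀ x
  have ey : g (g⁻¹ y) = y := g.apply_symm_apply _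
  have ez : g (g⁻¹ z) = z := g.apply_symm_apply _
  have hy' : Par (g⁻¹ y).1 (root a₀ b₀).1 := by
    rw [← mem_parGroup.1 hg, ey]; exact hy
  have hz' : Par (g⁻¹ z).1 (root a₀ b₀).1 := by
    rw [← mem_parGroup.1 hg, ez]; exact hz
  obtain ⟨i, hi⟩ | ⟨j, hj⟩ := hy'
  · simp [root] at hi
  · obtain ⟨i', hi'⟩ | ⟨j', hj'⟩ := hz'
    · simp [root] at hi'
    · obtain ⟨h, mh, eh⟩ := exists_rootPerm a₀ b₀ (Equiv.refl A) (Equiv.swap j j')
      have e0 : h (root a₀ b₀) = root a₀ b₀ := Subtype.ext (by rw [eh]; rfl)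
      have e1 : h (g⁻¹ y) = g⁻¹ z := Subtype.ext (by rw [eh, hj, hj']; simp [root, rp])
      refine ⟨g * h * g⁻¹, mul_mem (mul_mem hg mh) (inv_mem hg), ?_, ?_⟩
      · show g (h (g⁻¹ (g (root a₀ b₀)))) = _
        have : g⁻¹ (g (root a₀ b₀)) = root a₀ b₀ := g.symm_apply_apply _
        rw [this, e0]
      · show g (h (g⁻¹ y)) = _
        rw [e1, ez]

end Pool.Agent.H41.WC
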