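import Pool.Agent.H41.WC.Defs
import Pool.Agent.H41.WC.Tree

set_option linter.unusedSectionVars false

namespace Pool.Agent.H41.WC

open scoped ENNReal NNReal

section general

variable {V : Type*} {G : SimpleGraph V}

/-- The stabilizer of `x` in `Γ`. -/
def stab (Γ : Subgroup (G ≃g G)) (x : V) : Subgroup (G ≃g G) :=
  MulAction.stabilizer (G ≃g G) x ⊓ Γ

theorem mem_stab {Γ : Subgroup (G ≃g G)} {x : V} {γ : G ≃g G} :
    γ ∈ stab Γ x ↔ γ x = x ∧ γ ∈ Γ := Iff.rfl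

theorem ncard_stabOrbit (Γ : Subgroup (G ≃g G)) (x y : V) :
    (stabOrbit Γ x y).ncard = (stab Γ y).relIndex (stab Γ x) := by
  have h1 : MulAction.stabilizer (stab Γ x) y = (stab Γ y).subgroupOf (stab Γ x) := by
    ext ⟨γ, hγ⟩
    rw [Subgroup.mem_subgroupOf]
    show γ y = y ↔ (γ y = y ∧ γ ∈ Γ)
    exact ⟨fun h => ⟨h, hγ.2⟩, fun h => h.1⟩
  have h2 : MulAction.orbit (stab Γ x) y = stabOrbit Γ x y := by
    ext z
    constructor
    · rintro ⟨⟨γ, hγ⟩, rfl⟩
      exact ⟨γ, hγ.2, hγ.1, rfl⟩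
    · rintro ⟨γ, h1, h2, rfl⟩
      exact ⟨⟨γ, h2, h1⟩, rfl⟩
  rw [← h2, ← MulAction.index_stabilizer, h1]
  rfl

theorem cocycle (Γ : Subgroup (G ≃g G)) (h : ∀ x y, (stabOrbit Γ x y).ncard ≠ 0) (x y z : V) :
    (stabOrbit Γ x y).ncard * (stabOrbit Γ y z).ncard * (stabOrbit Γ z x).ncard =
      (stabOrbit Γ y x).ncard * (stabOrbit Γ z y).ncard * (stabOrbit Γ x z).ncard := by
  simp only [ncard_stabOrbit] at h ⊢
  set X := stab Γ x
  set Y := stab Γ y
  set Z := stab Γ z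
  have e1 : Z.relIndex (X ⊓ Y) * Y.relIndex X = Y.relIndex (X ⊓ Z) * Z.relIndex X := by
    rw [inf_comm X Y, Subgroup.relIndex_inf_mul_relIndex, inf_comm X Z,
      Subgroup.relIndex_inf_mul_relIndex, inf_comm]
  have e2 : X.relIndex (Y ⊓ Z) * Z.relIndex Y = Z.relIndex (X ⊓ Y) * X.relIndex Y := by
    rw [inf_comm Y Z, Subgroup.relIndex_inf_mul_relIndex,
      Subgroup.relIndex_inf_mul_relIndex, inf_comm]
  have e3 : Y.relIndex (X ⊓ Z) * X.relIndex Z = X.relIndex (Y ⊓ Z) * Y.relIndex Z := by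
    rw [Subgroup.relIndex_inf_mul_relIndex,
      Subgroup.relIndex_inf_mul_relIndex, inf_comm]
  have n1 : Z.relIndex (X ⊓ Y) ≠ 0 := fun h0 =>
    h x z (Subgroup.relIndex_eq_zero_of_le_right inf_le_left h0)
  have n2 : X.relIndex (Y ⊓ Z) ≠ 0 := fun h0 =>
    h y x (Subgroup.relIndex_eq_zero_of_le_right inf_le_left h0)
  have n3 : Y.relIndex (X ⊓ Z) ≠ 0 := fun h0 =>
    h x y (Subgroup.relIndex_eq_zero_of_le_right inf_le_left h0)
  have n : Z.relIndex (X ⊓ Y) * X.relIndex (Y ⊓ Z) * Y.relIndex (X ⊓ Z) ≠ 0 := by positivity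
  apply Nat.eq_of_mul_eq_mul_left (Nat.pos_of_ne_zero n)
  calc _ = (Z.relIndex (X ⊓ Y) * Y.relIndex X) * (X.relIndex (Y ⊓ Z) * Z.relIndex Y) *
        (Y.relIndex (X ⊓ Z) * X.relIndex Z) := by ring
    _ = (Y.relIndex (X ⊓ Z) * Z.relIndex X) * (Z.relIndex (X ⊓ Y) * X.relIndex Y) *
        (X.relIndex (Y ⊓ Z) * Y.relIndex Z) := by rw [e1, e2, e3]
    _ = _ := by ring

theorem relWeight_mul (Γ : Subgroup (G ≃g G)) (h : ∀ x y, (stabOrbit Γ x y).ncard ≠ 0)
    (x y z : V) : relWeight Γ y x * relWeight Γ z y = relWeight Γ z x := by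
  unfold relWeight
  have := cocycle Γ h x y z
  have h' : ∀ x y, ((stabOrbit Γ x y).ncard : ℝ≥0) ≠ 0 := fun x y => by exact_mod_cast h x y
  rw [div_mul_div_comm, div_eq_div_iff (mul_ne_zero (h' _ _) (h' _ _)) (h' _ _)]
  have e : (((stabOrbit Γ x y).ncard * (stabOrbit Γ y z).ncard * (stabOrbit Γ z x).ncard : ℕ) :
      ℝ≥0) = (((stabOrbit Γ y x).ncard * (stabOrbit Γ z y).ncard * (stabOrbit Γ x z).ncard : ℕ) :
      ℝ≥0) := by rw [this]
  push_cast at e
  calc _ = _ := e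
    _ = _ := by ring

end general

section tree

variable {A B : Type} [Fintype A] [Fintype B] [DecidableEq A] [DecidableEq B]
  {a₀ : A} {b₀ : B}

theorem ncard_parents (x : Vert a₀ b₀) :
    {z : Vert a₀ b₀ | Par x.1 z.1}.ncard = Fintype.card A := by
  obtain ⟨g, hg, rfl⟩ := transitive_par a₀ b₀ x
  have e : {z : Vert a₀ b₀ | Par (g (root a₀ b₀)).1 z.1} =
      Set.range (fun i : A => g ⟨[Sum.inl i], valid_single _ _ _⟩) := by
    ext z
    constructor
    · intro hz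
      have ez : g (g⁻¹ z) = z := g.apply_symm_apply _
      have hz' : Par (root a₀ b₀).1 (g⁻¹ z).1 := by
        rw [← mem_parGroup.1 hg, ez]; exact hz
      obtain ⟨i, hi⟩ | ⟨j, hj⟩ := hz'
      · refine ⟨i, ?_⟩
        show g _ = z
        rw [← ez]
        congr 1
        exact Subtype.ext hi.symm
      · simp [root] at hj
    · rintro ⟨i, rfl⟩
      show Par _ _
      rw [mem_parGroup.1 hg]
      exact Or.inl ⟨i, rfl⟩
  rw [e, ← Set.image_univ, Set.ncard_image_of_injective]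
  · simp
  · intro i j hij
    have := congrArg Subtype.val (g.injective hij)
    simpa using this

theorem ncard_children (x : Vert a₀ b₀) :
    {z : Vert a₀ b₀ | Par z.1 x.1}.ncard = Fintype.card B := by
  obtain ⟨g, hg, rfl⟩ := transitive_par a₀ b₀ x
  have e : {z : Vert a₀ b₀ | Par z.1 (g (root a₀ b₀)).1} =
      Set.range (fun j : B => g ⟨[Sum.inr j], valid_single _ _ _⟩) := by
    ext z
    constructor
    · intro hz
      have ez : g (g⁻¹ z) = z := g.apply_symm_apply _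
      have hz' : Par (g⁻¹ z).1 (root a₀ b₀).1 := by
        rw [← mem_parGroup.1 hg, ez]; exact hz
      obtain ⟨i, hi⟩ | ⟨j, hj⟩ := hz'
      · simp [root] at hi
      · refine ⟨j, ?_⟩
        show g _ = z
        rw [← ez]
        congr 1
        exact Subtype.ext hj.symm
    · rintro ⟨j, rfl⟩
      show Par _ _
      rw [mem_parGroup.1 hg]
      exact Or.inr ⟨j, rfl⟩
  rw [e, ← Set.image_univ, Set.ncard_image_of_injective]
  · simp
  · intro i j hij
    have := congrArg Subtype.val (g.injective hij)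
    simpa using this

theorem stabOrbit_parent {x y : Vert a₀ b₀} (h : Par x.1 y.1) :
    stabOrbit (parGroup a₀ b₀) x y = {z : Vert a₀ b₀ | Par x.1 z.1} := by
  ext z
  constructor
  · rintro ⟨γ, hγ, h1, rfl⟩
    show Par _ _
    have := (mem_parGroup.1 hγ x y).2 h
    rwa [h1] at this
  · intro hz
    exact transitive_parents a₀ b₀ x y z h hz

theorem stabOrbit_child {x y : Vert a₀ b₀} (h : Par y.1 x.1) :
    stabOrbit (parGroup a₀ b₀) x y = {z : Vert a₀ b₀ | Par z.1 x.1} := by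
  ext z
  constructor
  · rintro ⟨γ, hγ, h1, rfl⟩
    show Par _ _
    have := (mem_parGroup.1 hγ y x).2 h
    rwa [h1] at this
  · intro hz
    exact transitive_children a₀ b₀ x y z h hz

theorem ncard_orbit_parent {x y : Vert a₀ b₀} (h : Par x.1 y.1) :
    (stabOrbit (parGroup a₀ b₀) x y).ncard = Fintype.card A := by
  rw [stabOrbit_parent h, ncard_parents]

theorem ncard_orbit_child {x y : Vert a₀ b₀} (h : Par y.1 x.1) :
    (stabOrbit (parGroup a₀ b₀) x y).ncard = Fintype.card B := by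
  rw [stabOrbit_child h, ncard_children]

theorem par_or_tail (s : A ⊕ B) (w : List (A ⊕ B)) : Par w (s :: w) ∨ Par (s :: w) w := by
  rcases s with i | j
  · exact Or.inl (Or.inl ⟨i, rfl⟩)
  · exact Or.inr (Or.inr ⟨j, rfl⟩)

theorem card_ne (a₀ : A) (b₀ : B) : Fintype.card A ≠ 0 ∧ Fintype.card B ≠ 0 := by
  have : Nonempty A := ⟨a₀⟩
  have : Nonempty B := ⟨b₀⟩
  exact ⟨Fintype.card_ne_zero, Fintype.card_ne_zero⟩

theorem orbit_ne_zero (x y : Vert a₀ b₀) : (stabOrbit (parGroup a₀ b₀) x y).ncard ≠ 0 := by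
  have hc := card_ne a₀ b₀
  have step : ∀ x y : Vert a₀ b₀, (Par x.1 y.1 ∨ Par y.1 x.1) →
      (stab (parGroup a₀ b₀) y).relIndex (stab (parGroup a₀ b₀) x) ≠ 0 := by
    rintro x y (h | h)
    · rw [← ncard_stabOrbit, ncard_orbit_parent h]; exact hc.1
    · rw [← ncard_stabOrbit, ncard_orbit_child h]; exact hc.2
  have key : ∀ (l : List (A ⊕ B)) (hl : Valid a₀ b₀ l),
      (stab (parGroup a₀ b₀) (root a₀ b₀)).relIndex (stab (parGroup a₀ b₀) ⟨l, hl⟩) ≠ 0 ∧
      (stab (parGroup a₀ b₀) ⟨l, hl⟩).relIndex (stab (parGroup a₀ b₀) (root a₀ b₀)) ≠ 0 := by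
    intro l
    induction l with
    | nil =>
      intro hl
      have : (⟨[], hl⟩ : Vert a₀ b₀) = root a₀ b₀ := rfl
      rw [this, Subgroup.relIndex_self]
      simp
    | cons s w ih =>
      intro hl
      have h1 := ih hl.2
      have h2 := step ⟨w, hl.2⟩ ⟨s :: w, hl⟩ (par_or_tail s w)
      have h3 := step ⟨s :: w, hl⟩ ⟨w, hl.2⟩ (par_or_tail s w).symm
      exact ⟨Subgroup.relIndex_ne_zero_trans h1.1 h3, Subgroup.relIndex_ne_zero_trans h2 h1.2⟩
  rw [ncard_stabOrbit]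
  exact Subgroup.relIndex_ne_zero_trans (key y.1 y.2).2 (key x.1 x.2).1

/-- The square root of the weight: each step to a parent multiplies it by `κ`, each step to a
child divides it by `κ`. -/
noncomputable def hw (κ : ℝ≥0) : List (A ⊕ B) → ℝ≥0
  | [] => 1
  | Sum.inl _ :: w => κ * hw κ w
  | Sum.inr _ :: w => κ⁻¹ * hw κ w

theorem hw_pos {κ : ℝ≥0} (hκ : κ ≠ 0) : ∀ l : List (A ⊕ B), hw κ l ≠ 0 := by
  intro l
  induction l with
  | nil => simp [hw]
  | cons s w ih =>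
    rcases s with i | j
    · simp only [hw]; positivity
    · simp only [hw]; positivity

theorem relWeight_parent {κ : ℝ≥0} (hκ : κ ≠ 0)
    (hcard : (Fintype.card B : ℝ≥0) = κ ^ 2 * Fintype.card A)
    {x y : Vert a₀ b₀} (h : Par y.1 x.1) : relWeight (parGroup a₀ b₀) y x = κ ^ 2 := by
  unfold relWeight
  rw [ncard_orbit_child h, ncard_orbit_parent h, hcard]
  have : (Fintype.card A : ℝ≥0) ≠ 0 := by exact_mod_cast (card_ne a₀ b₀).1
  field_simp

theorem relWeight_child {κ : ℝ≥0} (hκ : κ ≠ 0)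
    (hcard : (Fintype.card B : ℝ≥0) = κ ^ 2 * Fintype.card A)
    {x y : Vert a₀ b₀} (h : Par x.1 y.1) : relWeight (parGroup a₀ b₀) y x = (κ ^ 2)⁻¹ := by
  unfold relWeight
  rw [ncard_orbit_parent h, ncard_orbit_child h, hcard]
  have : (Fintype.card A : ℝ≥0) ≠ 0 := by exact_mod_cast (card_ne a₀ b₀).1
  field_simp

theorem relWeight_self (x : Vert a₀ b₀) : relWeight (parGroup a₀ b₀) x x = 1 := by
  unfold relWeight
  have : ((stabOrbit (parGroup a₀ b₀) x x).ncard : ℝ≥0) ≠ 0 := by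
    exact_mod_cast orbit_ne_zero x x
  exact div_self this

theorem relWeight_root {κ : ℝ≥0} (hκ : κ ≠ 0)
    (hcard : (Fintype.card B : ℝ≥0) = κ ^ 2 * Fintype.card A) :
    ∀ (l : List (A ⊕ B)) (hl : Valid a₀ b₀ l),
      relWeight (parGroup a₀ b₀) (root a₀ b₀) ⟨l, hl⟩ = hw κ l ^ 2 := by
  intro l
  induction l with
  | nil =>
    intro hl
    have : (⟨[], hl⟩ : Vert a₀ b₀) = root a₀ b₀ := rfl
    rw [this, relWeight_self]
    simp [hw]
  | cons s w ih =>
    intro hl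
    rw [← relWeight_mul _ orbit_ne_zero _ ⟨w, hl.2⟩, ih hl.2]
    rcases s with i | j
    · rw [relWeight_parent hκ hcard (Or.inl ⟨i, rfl⟩)]
      simp only [hw]
      ring
    · rw [relWeight_child hκ hcard (Or.inr ⟨j, rfl⟩)]
      simp only [hw]
      rw [mul_pow, inv_pow]

theorem relWeight_eq {κ : ℝ≥0} (hκ : κ ≠ 0)
    (hcard : (Fintype.card B : ℝ≥0) = κ ^ 2 * Fintype.card A) (o x : Vert a₀ b₀) :
    relWeight (parGroup a₀ b₀) o x = (hw κ o.1 ^ 2)⁻¹ * hw κ x.1 ^ 2 := by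
  have h1 := relWeight_mul (parGroup a₀ b₀) orbit_ne_zero x o (root a₀ b₀)
  have e1 := relWeight_root hκ hcard (a₀ := a₀) (b₀ := b₀) o.1 o.2
  have e2 := relWeight_root hκ hcard (a₀ := a₀) (b₀ := b₀) x.1 x.2
  rw [Subtype.coe_eta] at e1 e2
  rw [e1, e2] at h1
  have : hw κ o.1 ^ 2 ≠ 0 := pow_ne_zero _ (hw_pos hκ _)
  rw [← h1, mul_comm (relWeight _ _ _), ← mul_assoc, inv_mul_cancel₀ this, one_mul]

end tree

end Pool.Agent.H41.WC
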